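import Pool.Agent.Results.MP_04d4af_lc.NoBox
import Pool.Agent.Y561.PB.Final

/-!
# The polarized relation for `κ⁺ × κ⁺ × κ⁺` and boxes of size `κ`: the exact picture

Stronger form of the starting result `NoBox` (for every infinite `κ` some 2-colouring of
`κ⁺ × κ⁺ × κ⁺` has no monochromatic box with sides of size `κ`; the negative answer to Q1).

New: two is the exact number of colours which cannot be avoided, and `κ` the exact size of the
sides, for `κ = ℵ₀` and for every measurable `κ`.  In fact every colouring of `κ × κ × κ⁺` with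
fewer than `κ` colours is canonical on a box with sides of size `κ`: the colour of
`(x_s, y_t, z_r)` only depends on whether `s ≤ t`.  On `κ × κ × κ` six colours cannot be avoided.
-/

set_option autoImplicit false

open Cardinal Order

universe u

namespace Pool.Agent.Results.MP_04d4af_lc.TwoColoursExact

open Pool.Agent.Y561.PB

theorem result (κ : Cardinal.{u}) (hκ : ℵ₀ ≤ κ) :
    -- (1) the negative answer to Q1, for every infinite `κ`
    (∀ X Y Z : Type u, #X = succ κ → #Y = succ κ → #Z = succ κ →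
      ∃ c : X × Y × Z → Fin 2, ∀ (k : Fin 2) (H₁ : Set X) (H₂ : Set Y) (H₃ : Set Z),
        #H₁ = κ → #H₂ = κ → #H₃ = κ →
        ¬ ∀ x ∈ H₁, ∀ y ∈ H₂, ∀ z ∈ H₃, c (x, y, z) = k) ∧
    -- (2) canonical colourings on `κ × κ × κ⁺`, for `κ = ℵ₀` and for measurable `κ`
    (κ = ℵ₀ ∨ HasUltrafilter κ → ∀ X Y Z D : Type u, κ ≤ #X → κ ≤ #Y → κ < #Z → #D < κ →
      ∀ c : X × Y × Z → D,
        (∃ (x : κ.ord.ToType → X) (y : κ.ord.ToType → Y) (z : κ.ord.ToType → Z) (i j : D),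
          Function.Injective x ∧ Function.Injective y ∧ Function.Injective z ∧
          ∀ s t r, c (x s, y t, z r) = if s ≤ t then i else j) ∧
        ∃ (i j : D) (H₁ : Set X) (H₂ : Set Y) (H₃ : Set Z), #H₁ = κ ∧ #H₂ = κ ∧ #H₃ = κ ∧
          ∀ x ∈ H₁, ∀ y ∈ H₂, ∀ z ∈ H₃, c (x, y, z) = i ∨ c (x, y, z) = j) ∧
    -- (3) all sizes of the sides and all numbers of colours
    (κ = ℵ₀ ∨ HasUltrafilter κ → ∀ X Y Z D : Type u,
      #X = succ κ → #Y = succ κ → #Z = succ κ → 2 ≤ #D → #D < κ →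
      ∀ α β γ : Cardinal.{u}, α ≤ κ → β ≤ κ → γ ≤ κ →
        ((∀ c : X × Y × Z → D, ∃ (k : D) (H₁ : Set X) (H₂ : Set Y) (H₃ : Set Z),
          #H₁ = α ∧ #H₂ = β ∧ #H₃ = γ ∧ ∀ x ∈ H₁, ∀ y ∈ H₂, ∀ z ∈ H₃, c (x, y, z) = k) ↔
        (α < κ ∨ β < κ ∨ γ < κ))) ∧
    -- (4) on `κ × κ × κ` six colours cannot be avoided, for every infinite `κ`
    (∀ X Y Z : Type u, #X = κ → #Y = κ → #Z = κ →
      ∃ c : X × Y × Z → Fin 6, ∀ (H₁ : Set X) (H₂ : Set Y) (H₃ : Set Z),
        #H₁ = κ → #H₂ = κ → #H₃ = κ →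
        ∀ k, ∃ x ∈ H₁, ∃ y ∈ H₂, ∃ z ∈ H₃, c (x, y, z) = k) := by
  classical
  have hun : κ = ℵ₀ ∨ HasUltrafilter κ → HasUltrafilter κ := by
    rintro (rfl | h)
    · exact hasUltrafilter_aleph0
    · exact h
  refine ⟨NoBox.result κ hκ, ?_, ?_, six hκ⟩
  · intro h X Y Z D hX hY hZ hD c
    obtain ⟨x, y, z, i, j, hx, hy, hz, hc⟩ :=
      canonical' hκ (hun h) hX hY hZ hD (fun a b e => c (a, b, e))
    have hW : #κ.ord.ToType = κ := Cardinal.mk_ord_toType _
    refine ⟨⟨x, y, z, i, j, hx, hy, hz, ?_⟩, i, j, Set.range x, Set.range y, Set.range z,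
      ?_, ?_, ?_, ?_⟩
    · intro s t r
      by_cases hst : s ≤ t
      · rw [if_pos hst]
        exact (hc s t r).1 hst
      · rw [if_neg hst]
        exact (hc s t r).2 (not_le.1 hst)
    · rw [Cardinal.mk_range_eq x hx, hW]
    · rw [Cardinal.mk_range_eq y hy, hW]
    · rw [Cardinal.mk_range_eq z hz, hW]
    · rintro _ ⟨s, rfl⟩ _ ⟨t, rfl⟩ _ ⟨r, rfl⟩
      rcases le_or_gt s t with hst | hst
      · exact Or.inl ((hc s t r).1 hst)
      · exact Or.inr ((hc s t r).2 hst)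
  · intro h X Y Z D hX hY hZ hD2 hD α β γ hα hβ hγ
    have hU := hun h
    have hX' : κ < #X := by rw [hX]; exact lt_succ κ
    have hY' : κ < #Y := by rw [hY]; exact lt_succ κ
    have hZ' : κ < #Z := by rw [hZ]; exact lt_succ κ
    constructor
    · intro hall
      by_contra hcon
      push Not at hcon
      obtain ⟨h1, h2, h3⟩ := hcon
      have e1 : α = κ := le_antisymm hα h1
      have e2 : β = κ := le_antisymm hβ h2
      have e3 : γ = κ := le_antisymm hγ h3
      obtain ⟨c, hc⟩ := NoBox.result κ hκ X Y Z hX hY hZ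
      have h2' : #(ULift.{u} (Fin 2)) ≤ #D := by simpa using hD2
      obtain ⟨e⟩ := h2'
      obtain ⟨k, H₁, H₂, H₃, g1, g2, g3, hk⟩ := hall (fun p => e (ULift.up (c p)))
      rw [e1] at g1
      rw [e2] at g2
      rw [e3] at g3
      have hne : ∀ {V : Type u} (H : Set V), #H = κ → H.Nonempty := by
        intro V H hH
        rw [Set.nonempty_iff_ne_empty]
        rintro rfl
        rw [mk_emptyCollection] at hH
        exact absurd (hH ▸ hκ) (not_le.2 aleph0_pos)
      obtain ⟨x0, hx0⟩ := hne H₁ g1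
      obtain ⟨y0, hy0⟩ := hne H₂ g2
      obtain ⟨z0, hz0⟩ := hne H₃ g3
      refine hc (c (x0, y0, z0)) H₁ H₂ H₃ g1 g2 g3 ?_
      intro x hx y hy z hz
      have := (hk x hx y hy z hz).trans (hk x0 hx0 y0 hy0 z0 hz0).symm
      exact ULift.up.inj (e.injective this)
    · rintro (h1 | h1 | h1) c
      · exact small_first hκ hU hX'.le hY'.le hZ' hD (fun a b e => c (a, b, e)) h1 hβ hγ
      · obtain ⟨k, H₁, H₂, H₃, g1, g2, g3, hk⟩ :=
          small_first hκ hU hY'.le hX'.le hZ' hD (fun a b e => c (b, a, e)) h1 hα hγ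
        exact ⟨k, H₂, H₁, H₃, g2, g1, g3, fun x hx y hy z hz => hk y hy x hx z hz⟩
      · obtain ⟨k, H₁, H₂, H₃, g1, g2, g3, hk⟩ :=
          small_first hκ hU hZ'.le hY'.le hX' hD (fun a b e => c (e, b, a)) h1 hβ hα
        exact ⟨k, H₃, H₂, H₁, g3, g2, g1, fun x hx y hy z hz => hk z hz y hy x hx⟩

end Pool.Agent.Results.MP_04d4af_lc.TwoColoursExact
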