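import Mathlib
import Pool.Agent.Results.MP_04d4af_lc.NoBox
import Pool.Agent.Y428.Box.Meas

/-!
# MP_04d4af_lc : two colours are optimal, for `κ = ω` and for measurable `κ`

The question asks whether every colouring of a product of three sets of cardinality `κ⁺` with
two colours has a monochromatic box with sides of cardinality `κ`.

Part (1) answers it for every infinite `κ` (no).  The other parts show that for `κ = ω` and for
every measurable `κ` both parameters of the answer are exactly right, the number of colours and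
the shape of the box.

(2) If `X`, `Y` have at least `κ` elements and `Z` has more than `κ`, then every colouring of
`X × Y × Z` with fewer than `κ` colours is canonical on a box with sides of cardinality `κ`:
there are injective families `x`, `y`, `z` indexed by the ordinals below `κ` such that the
colour of `(x i, y j, z l)` depends only on whether `i ≤ j`.

(3) In particular such a colouring takes at most two values on some box with sides of
cardinality `κ`; by (1) the number two is optimal.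

(4) If `X`, `Z` have at least `κ` elements and `Y` has more than `κ`, then such a colouring has
monochromatic boxes with two sides of cardinality `κ` and the third side of any prescribed
cardinality smaller than `κ`.
-/

set_option autoImplicit false
open Cardinal Order Filter
open Pool.Agent.Y428.Box

universe u

namespace Pool.Agent.Results.MP_04d4af_lc.TwoColoursOptimal

lemma pow_lt {κ : Cardinal.{u}} (hκ : ℵ₀ ≤ κ) (h : HasCompleteUltrafilter κ)
    {x y : Cardinal.{u}} (hx : x < κ) (hy : y < κ) : x ^ y < κ := by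
  obtain ⟨K, U, hK, hU, hfree⟩ := h
  calc x ^ y ≤ (2 ^ x) ^ y := Cardinal.power_le_power_right (Cardinal.cantor x).le
    _ = 2 ^ (x * y) := Cardinal.power_mul.symm
    _ < κ := strong_limit U hK hfree _ (Cardinal.mul_lt_of_lt hκ hx hy)

/-- Monochromatic boxes with one smaller side. -/
theorem small_side {κ : Cardinal.{u}} (hκ : ℵ₀ ≤ κ) (h : HasCompleteUltrafilter κ)
    {X Y Z R : Type u} (hX : κ ≤ #X) (hY : κ < #Y) (hZ : κ ≤ #Z) (hR : #R < κ)
    (c : X × Y × Z → R) (μ : Cardinal.{u}) (hμ : μ < κ) :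
    ∃ (k : R) (H₁ : Set X) (H₂ : Set Y) (H₃ : Set Z),
      #H₁ = κ ∧ #H₂ = κ ∧ #H₃ = μ ∧
      ∀ x ∈ H₁, ∀ y ∈ H₂, ∀ z ∈ H₃, c (x, y, z) = k := by
  classical
  -- a set of indices, slightly larger than `μ` times the number of colours
  have hν : succ (#R * μ) < κ := by
    obtain ⟨K, U, hK, hU, hfree⟩ := h
    exact lt_of_le_of_lt (Order.succ_le_of_lt (Cardinal.cantor _))
      (strong_limit U hK hfree _ (Cardinal.mul_lt_of_lt hκ hR hμ))
  obtain ⟨T, hT⟩ : ∃ T : Type u, #T = succ (#R * μ) := ⟨_, Cardinal.mk_out _⟩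
  obtain ⟨eZ⟩ : Nonempty (T ↪ Z) := by
    rw [← Cardinal.le_def, hT]
    exact hν.le.trans hZ
  have hRT : #(T → R) < κ := by
    have h1 : #(T → R) = #R ^ #T := by simp
    rw [h1]
    exact pow_lt hκ h hR (by rw [hT]; exact hν)
  obtain ⟨x, x', y, k₁, k₂, hx, hx', hy, hc⟩ := core hκ h (X := X) (Y := X) (Z := Y) (R := T → R)
    hX hX hY hRT (fun p => fun t => c (p.1, p.2.2, eZ t))
  have h1 : ∀ i l t, c (x i, y l, eZ t) = k₁ t := by
    intro i l t
    have := hc i i l
    rw [if_pos le_rfl] at this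
    exact congrFun this t
  obtain ⟨k, hk⟩ : ∃ k : R, μ ≤ #{t : T | k₁ t = k} := by
    by_contra hcon
    push Not at hcon
    have h2 : (Set.univ : Set T) ⊆ ⋃ k : R, {t : T | k₁ t = k} := by
      intro t _
      exact Set.mem_iUnion.2 ⟨k₁ t, rfl⟩
    have h3 := Cardinal.mk_le_mk_of_subset h2
    rw [Cardinal.mk_univ, hT] at h3
    have h4 : #(⋃ k : R, {t : T | k₁ t = k}) ≤ #R * μ :=
      (Cardinal.mk_iUnion_le _).trans (mul_le_mul' le_rfl (ciSup_le' fun k => (hcon k).le))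
    exact absurd (h3.trans h4) (not_le.2 (Order.lt_succ _))
  obtain ⟨T', hT', hT'μ⟩ := Cardinal.le_mk_iff_exists_subset.1 hk
  refine ⟨k, Set.range x, Set.range y, eZ '' T', ?_, ?_, ?_, ?_⟩
  · rw [Cardinal.mk_range_eq _ hx, Cardinal.mk_ord_toType]
  · rw [Cardinal.mk_range_eq _ hy, Cardinal.mk_ord_toType]
  · rw [Cardinal.mk_image_eq eZ.injective, hT'μ]
  · rintro _ ⟨i, rfl⟩ _ ⟨l, rfl⟩ _ ⟨t, ht, rfl⟩
    rw [h1 i l t]
    exact hT' ht

/-- (1) For every infinite `κ` and sets of cardinality `κ⁺` there is a colouring with two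
colours without a monochromatic box whose three sides have cardinality at least `κ`.

Let now `κ` be an infinite cardinal with a `κ`-complete free ultrafilter, that is `κ = ω`
(part (5)) or `κ` measurable, and consider colourings of `X × Y × Z` with fewer than `κ`
colours.
(2) If `X`, `Y` have at least `κ` elements and `Z` has more than `κ` then there are injective
families `x`, `y`, `z` indexed by the ordinals below `κ` such that the colour of
`(x i, y j, z l)` depends only on whether `i ≤ j`.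
(3) Hence the colouring takes at most two values on a box with sides of cardinality `κ`.
(4) If `X`, `Z` have at least `κ` elements and `Y` has more than `κ` then for every `μ < κ`
there is a monochromatic box with sides of cardinality `κ`, `κ` and `μ`. -/
theorem result :
    (∀ κ : Cardinal.{u}, ℵ₀ ≤ κ → ∀ X Y Z : Type u,
      #X = succ κ → #Y = succ κ → #Z = succ κ →
      ∃ c : X × Y × Z → Fin 2, ∀ (k : Fin 2) (H₁ : Set X) (H₂ : Set Y) (H₃ : Set Z),
        κ ≤ #H₁ → κ ≤ #H₂ → κ ≤ #H₃ →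
        ¬ ∀ x ∈ H₁, ∀ y ∈ H₂, ∀ z ∈ H₃, c (x, y, z) = k) ∧
    (∀ κ : Cardinal.{u}, ℵ₀ ≤ κ → HasCompleteUltrafilter κ → ∀ X Y Z R : Type u, #R < κ →
      κ ≤ #X → κ ≤ #Y → κ < #Z → ∀ c : X × Y × Z → R,
      ∃ (x : κ.ord.ToType → X) (y : κ.ord.ToType → Y) (z : κ.ord.ToType → Z) (k₁ k₂ : R),
        Function.Injective x ∧ Function.Injective y ∧ Function.Injective z ∧
        ∀ i j l, (i ≤ j → c (x i, y j, z l) = k₁) ∧ (j < i → c (x i, y j, z l) = k₂)) ∧
    (∀ κ : Cardinal.{u}, ℵ₀ ≤ κ → HasCompleteUltrafilter κ → ∀ X Y Z R : Type u, #R < κ →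
      κ ≤ #X → κ ≤ #Y → κ < #Z → ∀ c : X × Y × Z → R,
      ∃ (k₁ k₂ : R) (H₁ : Set X) (H₂ : Set Y) (H₃ : Set Z),
        #H₁ = κ ∧ #H₂ = κ ∧ #H₃ = κ ∧
        ∀ x ∈ H₁, ∀ y ∈ H₂, ∀ z ∈ H₃, c (x, y, z) = k₁ ∨ c (x, y, z) = k₂) ∧
    (∀ κ : Cardinal.{u}, ℵ₀ ≤ κ → HasCompleteUltrafilter κ → ∀ X Y Z R : Type u, #R < κ →
      κ ≤ #X → κ < #Y → κ ≤ #Z → ∀ c : X × Y × Z → R, ∀ μ : Cardinal.{u}, μ < κ →
      ∃ (k : R) (H₁ : Set X) (H₂ : Set Y) (H₃ : Set Z),
        #H₁ = κ ∧ #H₂ = κ ∧ #H₃ = μ ∧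
        ∀ x ∈ H₁, ∀ y ∈ H₂, ∀ z ∈ H₃, c (x, y, z) = k) ∧
    HasCompleteUltrafilter (ℵ₀ : Cardinal.{u}) := by
  refine ⟨?_, ?_, ?_, ?_, hasCompleteUltrafilter_aleph0⟩
  · intro κ hκ X Y Z hX hY hZ
    obtain ⟨c, hc⟩ := NoBox.result κ hκ X Y Z hX hY hZ
    refine ⟨c, fun k H₁ H₂ H₃ h1 h2 h3 hmono => ?_⟩
    obtain ⟨K₁, hK₁, hc1⟩ := Cardinal.le_mk_iff_exists_subset.1 h1
    obtain ⟨K₂, hK₂, hc2⟩ := Cardinal.le_mk_iff_exists_subset.1 h2
    obtain ⟨K₃, hK₃, hc3⟩ := Cardinal.le_mk_iff_exists_subset.1 h3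
    exact hc k K₁ K₂ K₃ hc1 hc2 hc3
      (fun x hx y hy z hz => hmono x (hK₁ hx) y (hK₂ hy) z (hK₃ hz))
  · intro κ hκ h X Y Z R hR hX hY hZ c
    obtain ⟨x, y, z, k₁, k₂, hx, hy, hz, hc⟩ := core hκ h hX hY hZ hR c
    refine ⟨x, y, z, k₁, k₂, hx, hy, hz, fun i j l => ⟨fun hij => ?_, fun hij => ?_⟩⟩
    · rw [hc i j l, if_pos hij]
    · rw [hc i j l, if_neg (not_le.2 hij)]
  · intro κ hκ h X Y Z R hR hX hY hZ c
    obtain ⟨x, y, z, k₁, k₂, hx, hy, hz, hc⟩ := core hκ h hX hY hZ hR c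
    refine ⟨k₁, k₂, Set.range x, Set.range y, Set.range z, ?_, ?_, ?_, ?_⟩
    · rw [Cardinal.mk_range_eq _ hx, Cardinal.mk_ord_toType]
    · rw [Cardinal.mk_range_eq _ hy, Cardinal.mk_ord_toType]
    · rw [Cardinal.mk_range_eq _ hz, Cardinal.mk_ord_toType]
    · rintro _ ⟨i, rfl⟩ _ ⟨j, rfl⟩ _ ⟨l, rfl⟩
      rw [hc i j l]
      by_cases hij : i ≤ j
      · exact Or.inl (if_pos hij)
      · exact Or.inr (if_neg hij)
  · intro κ hκ h X Y Z R hR hX hY hZ c μ hμ
    exact small_side hκ h hX hY hZ hR c μ hμ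

end Pool.Agent.Results.MP_04d4af_lc.TwoColoursOptimal
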